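import Pool.Agent.T9h36.SC.P9

/-!
The choice of the parameters: the last condition, and the assembly.
-/

set_option autoImplicit false

namespace Pool.Agent.T9h36.SC

open Finset Pool.Agent.T9h20.SC Filter

/-- The constant factor. -/
def cst (k : ℕ) : ℕ :=
  (2 * (k + 1) * ((k + 1) ^ (k + 1)) ^ (k + 1)) ^ (k + 1) * ((k + 1) ^ 2) ^ k *
    8 ^ ((k + 1) ^ 3)

theorem loss_eq (k s f X r Y : ℕ) :
    loss k s f (2 * X ^ ((k + 1) ^ 2 * r) * 4 ^ (k * s / Y + 1)) =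
      cst k * f ^ (k + 1) * X ^ ((k + 1) ^ 5 * r) * 4 ^ ((k + 1) ^ 3 * (k * s / Y)) *
        (k * s + 1) := by
  unfold loss cst
  generalize k * s / Y = q
  obtain ⟨ℓ, hℓ⟩ : ∃ ℓ, ℓ = k + 1 := ⟨_, rfl⟩
  rw [← hℓ]
  have e2 : ((2 * X ^ (ℓ ^ 2 * r) * 4 ^ (q + 1)) ^ ℓ) ^ ℓ =
      8 ^ (ℓ ^ 2) * X ^ (ℓ ^ 4 * r) * 4 ^ (ℓ ^ 2 * q) := by
    have e3 : (8 : ℕ) ^ (ℓ ^ 2) = 2 ^ (ℓ * ℓ) * 4 ^ (ℓ * ℓ) := by
      rw [← mul_pow, ← pow_two]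
      norm_num
    have e5 : (4 : ℕ) ^ ((q + 1) * (ℓ * ℓ)) = 4 ^ (ℓ ^ 2 * q) * 4 ^ (ℓ * ℓ) := by
      rw [← pow_add]
      exact congrArg _ (by ring)
    have e6 : X ^ (ℓ ^ 2 * r * (ℓ * ℓ)) = X ^ (ℓ ^ 4 * r) := congrArg _ (by ring)
    rw [← pow_mul, mul_pow, mul_pow, ← pow_mul, ← pow_mul, e3, e5, e6]
    ring
  have e7 : (8 ^ ℓ ^ 2) ^ ℓ = 8 ^ (ℓ ^ 3) :=
    (pow_mul 8 (ℓ ^ 2) ℓ).symm.trans (congrArg _ (by ring))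
  have e8 : (X ^ (ℓ ^ 4 * r)) ^ ℓ = X ^ (ℓ ^ 5 * r) :=
    (pow_mul X (ℓ ^ 4 * r) ℓ).symm.trans (congrArg _ (by ring))
  have e9 : (4 ^ (ℓ ^ 2 * q)) ^ ℓ = 4 ^ (ℓ ^ 3 * q) :=
    (pow_mul 4 (ℓ ^ 2 * q) ℓ).symm.trans (congrArg _ (by ring))
  have e1 : (2 * f * ℓ * (ℓ ^ ℓ * (2 * X ^ (ℓ ^ 2 * r) * 4 ^ (q + 1)) ^ ℓ) ^ ℓ) ^ ℓ =
      (2 * ℓ * (ℓ ^ ℓ) ^ ℓ) ^ ℓ * f ^ ℓ * X ^ (ℓ ^ 5 * r) * 4 ^ (ℓ ^ 3 * q) * 8 ^ (ℓ ^ 3) := by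
    rw [mul_pow (ℓ ^ ℓ), e2]
    calc (2 * f * ℓ * ((ℓ ^ ℓ) ^ ℓ * (8 ^ ℓ ^ 2 * X ^ (ℓ ^ 4 * r) * 4 ^ (ℓ ^ 2 * q)))) ^ ℓ
        = ((2 * ℓ * (ℓ ^ ℓ) ^ ℓ) * f * X ^ (ℓ ^ 4 * r) * 4 ^ (ℓ ^ 2 * q) * 8 ^ ℓ ^ 2) ^ ℓ :=
          congrArg (fun z => z ^ ℓ) (by ring)
      _ = (2 * ℓ * (ℓ ^ ℓ) ^ ℓ) ^ ℓ * f ^ ℓ * (X ^ (ℓ ^ 4 * r)) ^ ℓ * (4 ^ (ℓ ^ 2 * q)) ^ ℓ *
          (8 ^ ℓ ^ 2) ^ ℓ := by
          rw [mul_pow _ (8 ^ ℓ ^ 2), mul_pow _ (4 ^ (ℓ ^ 2 * q)), mul_pow _ (X ^ (ℓ ^ 4 * r)),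
            mul_pow _ f]
      _ = _ := by rw [e7, e8, e9]
  rw [e1]
  ring

/-- The last condition. -/
theorem cond4 {ε : ℝ} (hε : 0 < ε) {k s n f X r R Y K₀ : ℕ} (hn : n = k * s)
    (hn1 : 1 ≤ n) (hf1 : 1 ≤ f) (hK₀ : 1 ≤ K₀) (hf : f ^ K₀ ≤ 2 ^ n)
    (hK₀ε : ((k + 1 : ℕ) : ℝ) ≤ ε / 8 * K₀)
    (hR : 1 ≤ R) (hr : r = n / R) (hRε : 8 * ((k + 1 : ℕ) : ℝ) ^ 5 * X ≤ ε * R)
    (hY : 1 ≤ Y) (hYε : 16 * ((k + 1 : ℕ) : ℝ) ^ 3 ≤ ε * Y)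
    (hbig : (cst k * 2 : ℕ) * (n : ℝ) ^ 1 < ((2 : ℝ) ^ (ε / 8)) ^ n) :
    (loss k s f (2 * X ^ ((k + 1) ^ 2 * r) * 4 ^ (n / Y + 1)) : ℝ) *
      (2 : ℝ) ^ ((1 - ε) * (n : ℝ)) < 2 ^ n := by
  have hnr : (0 : ℝ) ≤ n := Nat.cast_nonneg n
  have hn1r : (1 : ℝ) ≤ n := by exact_mod_cast hn1
  have a1 : (f : ℝ) ^ (k + 1) ≤ 2 ^ (ε / 8 * n) := pow_le_rpow hf1 hK₀ hf hK₀ε
  have a2 : (X : ℝ) ^ ((k + 1) ^ 5 * r) ≤ 2 ^ (ε / 8 * n) := by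
    have h1 : (X : ℝ) ≤ 2 ^ X := by exact_mod_cast Nat.lt_two_pow_self.le
    have hR0 : (0 : ℝ) < R := by exact_mod_cast hR
    have h2 : (r : ℝ) * R ≤ n := by
      rw [hr]
      exact_mod_cast Nat.div_mul_le_self n R
    calc (X : ℝ) ^ ((k + 1) ^ 5 * r) ≤ (2 ^ X) ^ ((k + 1) ^ 5 * r) :=
          pow_le_pow_left₀ (Nat.cast_nonneg _) h1 _
      _ = 2 ^ ((X * ((k + 1) ^ 5 * r) : ℕ) : ℝ) := by
          rw [Real.rpow_natCast, ← pow_mul]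
      _ ≤ 2 ^ (ε / 8 * n) := by
          apply Real.rpow_le_rpow_of_exponent_le (by norm_num)
          push_cast at hRε ⊢
          have h3 : (0 : ℝ) ≤ X * ((k + 1) ^ 5 * r) := by positivity
          have h4 : (X : ℝ) * ((k + 1) ^ 5 * r) * R ≤ ε / 8 * n * R := by
            calc (X : ℝ) * ((k + 1) ^ 5 * r) * R = (8 * ((k : ℝ) + 1) ^ 5 * X) * (r * R) / 8 := by
                  ring
              _ ≤ (ε * R) * n / 8 := by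
                  apply div_le_div_of_nonneg_right _ (by norm_num)
                  apply mul_le_mul hRε h2 (by positivity) (by positivity)
              _ = ε / 8 * n * R := by ring
          exact le_of_mul_le_mul_right h4 hR0
  have a3 : (4 : ℝ) ^ ((k + 1) ^ 3 * (n / Y)) ≤ 2 ^ (ε / 8 * n) := by
    have hY0 : (0 : ℝ) < Y := by exact_mod_cast hY
    have h2 : ((n / Y : ℕ) : ℝ) * Y ≤ n := by exact_mod_cast Nat.div_mul_le_self n Y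
    calc (4 : ℝ) ^ ((k + 1) ^ 3 * (n / Y)) = 2 ^ ((2 * ((k + 1) ^ 3 * (n / Y)) : ℕ) : ℝ) := by
          rw [Real.rpow_natCast, pow_mul 2 2]
          norm_num
      _ ≤ 2 ^ (ε / 8 * n) := by
          apply Real.rpow_le_rpow_of_exponent_le (by norm_num)
          generalize n / Y = q at h2
          push_cast at hYε ⊢
          have h4 : 2 * (((k : ℝ) + 1) ^ 3 * q) * Y ≤ ε / 8 * n * Y := by
            calc 2 * (((k : ℝ) + 1) ^ 3 * q) * Y = (16 * ((k : ℝ) + 1) ^ 3) * (q * Y) / 8 := by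
                  ring
              _ ≤ (ε * Y) * n / 8 := by
                  apply div_le_div_of_nonneg_right _ (by norm_num)
                  apply mul_le_mul hYε h2 (by positivity) (by positivity)
              _ = ε / 8 * n * Y := by ring
          exact le_of_mul_le_mul_right h4 hY0
  have a5 : (cst k : ℝ) * ((n : ℝ) + 1) < 2 ^ (ε / 8 * n) := by
    calc (cst k : ℝ) * ((n : ℝ) + 1)
        ≤ (cst k : ℝ) * (2 * (n : ℝ)) := by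
          gcongr
          linarith
      _ = (cst k * 2 : ℕ) * (n : ℝ) ^ 1 := by
          push_cast
          ring
      _ < ((2 : ℝ) ^ (ε / 8)) ^ n := hbig
      _ = 2 ^ (ε / 8 * n) := by
          rw [← Real.rpow_natCast, ← Real.rpow_mul (by norm_num)]
  rw [hn, loss_eq, ← hn]
  obtain ⟨T, hT⟩ : ∃ T : ℝ, T = 2 ^ (ε / 8 * n) := ⟨_, rfl⟩
  have hT0 : 0 < T := by
    rw [hT]
    positivity
  rw [← hT] at a1 a2 a3 a5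
  have hfin : T * T * T * T * (2 : ℝ) ^ ((1 - ε) * (n : ℝ)) ≤ 2 ^ n := by
    rw [hT, ← Real.rpow_add (by norm_num), ← Real.rpow_add (by norm_num),
      ← Real.rpow_add (by norm_num), ← Real.rpow_add (by norm_num), ← Real.rpow_natCast 2 n]
    apply Real.rpow_le_rpow_of_exponent_le (by norm_num)
    nlinarith
  obtain ⟨Z, hZ⟩ : ∃ Z : ℝ, Z = 2 ^ ((1 - ε) * (n : ℝ)) := ⟨_, rfl⟩
  have hZ0 : 0 < Z := by
    rw [hZ]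
    positivity
  rw [← hZ] at hfin ⊢
  refine lt_of_lt_of_le ?_ hfin
  push_cast
  calc (cst k : ℝ) * (f : ℝ) ^ (k + 1) * (X : ℝ) ^ ((k + 1) ^ 5 * r) *
        4 ^ ((k + 1) ^ 3 * (n / Y)) * ((n : ℝ) + 1) * Z
      = (((cst k : ℝ) * ((n : ℝ) + 1)) * (f : ℝ) ^ (k + 1) *
        (X : ℝ) ^ ((k + 1) ^ 5 * r) * 4 ^ ((k + 1) ^ 3 * (n / Y))) * Z := by
        ring
    _ < (T * T * T * T) * Z := by
        apply mul_lt_mul_of_pos_right _ hZ0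
        have hf0 : (0 : ℝ) < (f : ℝ) ^ (k + 1) := by
          have : (0 : ℝ) < f := by exact_mod_cast hf1
          positivity
        calc ((cst k : ℝ) * ((n : ℝ) + 1)) * (f : ℝ) ^ (k + 1) *
            (X : ℝ) ^ ((k + 1) ^ 5 * r) * 4 ^ ((k + 1) ^ 3 * (n / Y))
            ≤ ((cst k : ℝ) * ((n : ℝ) + 1)) * T * T * T := by gcongr
          _ < T * T * T * T := by
              have hTTTT : 0 < T * T * T := by positivity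
              calc ((cst k : ℝ) * ((n : ℝ) + 1)) * T * T * T
                  = ((cst k : ℝ) * ((n : ℝ) + 1)) * (T * T * T) := by ring
                _ < T * (T * T * T) := mul_lt_mul_of_pos_right a5 hTTTT
                _ = T * T * T * T := by ring

theorem stParamA : StParamA := by
  intro ε hε k hk2
  have hr1 : (1 : ℝ) < 2 ^ (ε / 8) := Real.one_lt_rpow (by norm_num) (by linarith)
  obtain ⟨Y, hY⟩ : ∃ Y, Y = ⌈16 * ((k + 1 : ℕ) : ℝ) ^ 3 / ε⌉₊ + 1 := ⟨_, rfl⟩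
  have hceil : ∀ (a : ℝ) (m : ℕ), m = ⌈a / ε⌉₊ + 1 → a ≤ ε * m := by
    intro a m hm
    have h1 := Nat.le_ceil (a / ε)
    have h2 : (m : ℝ) = ⌈a / ε⌉₊ + 1 := by exact_mod_cast hm
    have h3 : a / ε ≤ m := by linarith
    rw [div_le_iff₀ hε] at h3
    linarith
  have hYε := hceil _ _ hY
  obtain ⟨X, hX⟩ : ∃ X, X = (k + 1) ^ 2 * Y := ⟨_, rfl⟩
  obtain ⟨R, hR⟩ : ∃ R, R = ⌈8 * ((k + 1 : ℕ) : ℝ) ^ 5 * X / ε⌉₊ + 1 := ⟨_, rfl⟩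
  have hRε := hceil _ _ hR
  obtain ⟨K₀, hK₀⟩ : ∃ K₀, K₀ = ⌈8 * ((k + 1 : ℕ) : ℝ) / ε⌉₊ + 1 := ⟨_, rfl⟩
  have hK₀ε := hceil _ _ hK₀
  obtain ⟨p, hp, hpp⟩ := Nat.exists_infinite_primes (2 ^ ((k + 1) + R * (2 * (k + 1) + 4)))
  obtain ⟨N₂, hN₂⟩ := poly_lt_exp ((cst k * 2 : ℕ) : ℝ) 1 _ hr1
  obtain ⟨N₃, hN₃⟩ := poly_lt_exp ((2 ^ (4 + 2 * (k + 1) + (2 * (k + 1) + 4) * R) *
    p ^ (2 * (p - 1) + (k + 1) + 1) : ℕ) : ℝ) (p - 1) 4 (by norm_num)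
  refine ⟨K₀, max (max N₂ N₃) (max R 1), ?_⟩
  intro s hs
  have hs1 : 1 ≤ s := by omega
  refine ⟨hs1, ?_⟩
  obtain ⟨n, hn⟩ : ∃ n, n = k * s := ⟨_, rfl⟩
  have hsn : s ≤ n := by
    rw [hn]
    exact Nat.le_mul_of_pos_left _ (by omega)
  intro f hf1 hf
  rw [← hn] at hf ⊢
  have hn1 : 1 ≤ n := by omega
  have hRn : R ≤ n := by omega
  have hR1 : 1 ≤ R := by omega
  have hY1 : 1 ≤ Y := by omega
  have hX1 : 1 ≤ X := by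
    rw [hX]
    exact Nat.mul_pos (Nat.pow_pos (by omega)) hY1
  have hK₀1 : 1 ≤ K₀ := by omega
  refine ⟨p, X, 2 * X ^ ((k + 1) ^ 2 * (n / R)) * 4 ^ (n / Y + 1), n / R,
    4 * (p ^ 2 * n) ^ (p - 1), hpp, hX1, ?_, ?_, ?_, ?_, ?_, ?_⟩
  · have h1 : 0 < X ^ ((k + 1) ^ 2 * (n / R)) := Nat.pow_pos hX1
    have : 0 < 2 * X ^ ((k + 1) ^ 2 * (n / R)) * 4 ^ (n / Y + 1) := by positivity
    exact this
  · exact (Nat.one_le_div_iff (by omega)).2 hRn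
  · have h1 : (X + (k + 1) ^ 2) ^ n ≤ 4 ^ (n / Y + 1) * X ^ n := by
      have e1 : X + (k + 1) ^ 2 = (k + 1) ^ 2 * (Y + 1) := by rw [hX]; ring
      rw [e1, hX, mul_pow, mul_pow]
      calc ((k + 1) ^ 2) ^ n * (Y + 1) ^ n
          ≤ ((k + 1) ^ 2) ^ n * (4 ^ (n / Y + 1) * Y ^ n) :=
            Nat.mul_le_mul_left _ (succ_pow_le Y n hY1)
        _ = 4 ^ (n / Y + 1) * (((k + 1) ^ 2) ^ n * Y ^ n) := by ring
    calc 2 * X ^ ((k + 1) ^ 2 * (n / R)) * (X + (k + 1) ^ 2) ^ n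
        ≤ 2 * X ^ ((k + 1) ^ 2 * (n / R)) * (4 ^ (n / Y + 1) * X ^ n) :=
          Nat.mul_le_mul_left _ h1
      _ = 2 * X ^ ((k + 1) ^ 2 * (n / R)) * 4 ^ (n / Y + 1) * X ^ n := by ring
  · have e1 : p ^ 2 * n + p ^ 2 = p ^ 2 * (n + 1) := by ring
    calc (p ^ 2 * n) ^ (p - 1) * (p ^ 2 * n + p ^ 2) ^ n
        = (p ^ 2 * n) ^ (p - 1) * ((p ^ 2) ^ n * (n + 1) ^ n) := by rw [e1, mul_pow (p ^ 2) (n + 1)]
      _ ≤ (p ^ 2 * n) ^ (p - 1) * ((p ^ 2) ^ n * (4 * n ^ n)) :=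
          Nat.mul_le_mul_left _ (Nat.mul_le_mul_left _ (succ_pow_self_le n hn1))
      _ = 4 * (p ^ 2 * n) ^ (p - 1) * (p ^ 2 * n) ^ n := by
          rw [mul_pow (p ^ 2) n n]
          ring
  · intro m hm
    apply cond3 (ℓ := k + 1) (by omega) rfl hR1 hRn hp _ _ hm
    · have h1 := hN₃ n (by omega)
      exact_mod_cast h1
    · calc f = f ^ 1 := (pow_one f).symm
        _ ≤ f ^ K₀ := Nat.pow_le_pow_right hf1 hK₀1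
        _ ≤ 2 ^ n := hf
  · exact cond4 hε hn hn1 hf1 hK₀1 hf (by linarith) hR1 rfl hRε hY1 hYε (hN₂ n (by omega))

theorem stParamB : StParamB := by
  intro ε hε c
  have hr1 : (1 : ℝ) < 2 ^ ε := Real.one_lt_rpow (by norm_num) hε
  obtain ⟨N₁, hN₁⟩ := poly_lt_exp ((6 : ℝ) ^ c) (2 * c) _ hr1
  refine ⟨max N₁ 1, fun k hk s hs => ?_⟩
  have hk1 : 1 ≤ k := by omega
  have h1 := (hN₁ k (by omega)).le
  have h2 : (k * s) * (k * s).choose s ≤ (6 * k ^ 2) ^ s := by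
    have e1 : k ≤ k ^ s := Nat.le_self_pow (by omega) k
    have e2 : s ≤ 2 ^ s := Nat.lt_two_pow_self.le
    calc (k * s) * (k * s).choose s ≤ (k ^ s * 2 ^ s) * (3 * k) ^ s :=
          Nat.mul_le_mul (Nat.mul_le_mul e1 e2) (choose_le' k s hs)
      _ = (6 * k ^ 2) ^ s := by
          rw [← mul_pow, ← mul_pow]
          congr 1
          ring
  have h3 : (((k * s) * (k * s).choose s : ℕ) : ℝ) ≤ (6 * (k : ℝ) ^ 2) ^ s := by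
    exact_mod_cast h2
  calc (((k * s) * (k * s).choose s : ℕ) : ℝ) ^ c ≤ ((6 * (k : ℝ) ^ 2) ^ s) ^ c :=
        pow_le_pow_left₀ (Nat.cast_nonneg _) h3 _
    _ = ((6 : ℝ) ^ c * (k : ℝ) ^ (2 * c)) ^ s := by
        rw [← pow_mul, mul_comm s c, pow_mul, mul_pow, ← pow_mul]
    _ ≤ (((2 : ℝ) ^ ε) ^ k) ^ s := pow_le_pow_left₀ (by positivity) h1 _
    _ = 2 ^ (ε * ((k * s : ℕ) : ℝ)) := by
        rw [← pow_mul, ← Real.rpow_natCast, ← Real.rpow_mul (by norm_num)]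

end Pool.Agent.T9h36.SC
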