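import Pool.Agent.T9h20.SC.Basic

/-!
Plucking.
-/

set_option autoImplicit false

namespace Pool.Agent.T9h36.SC

open Finset Pool.Agent.T9h20.SC

/-- A refinement factors. -/
theorem exists_factor {n : ℕ} {Λ : Type} [Zero Λ] {τ s : Fin n → Λ} (h : Ref τ s) :
    ∃ φ : Λ → Λ, φ 0 = 0 ∧ ∀ j, φ (τ j) = s j := by
  classical
  refine ⟨fun c => if hc : ∃ j, τ j = c then s hc.choose else 0, ?_, ?_⟩
  · simp only
    split_ifs with hc
    · exact h.2 _ hc.choose_spec
    · rfl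
  · intro j
    have hj : ∃ j', τ j' = τ j := ⟨j, rfl⟩
    simp only
    rw [dif_pos hj]
    exact h.1 _ _ hj.choose_spec

theorem stRank : StRank := by
  classical
  intro Λ _ _ _ n τ s h
  obtain ⟨φ, hφ0, hφ⟩ := exists_factor h
  obtain ⟨A, hA⟩ : ∃ A, A = (univ.image τ).erase 0 := ⟨_, rfl⟩
  have hsub : (univ.image s).erase 0 ⊆ (A.filter fun c => φ c ≠ 0).image φ := by
    intro c hc
    rw [mem_erase, mem_image] at hc
    obtain ⟨hc0, i, -, rfl⟩ := hc
    refine mem_image.2 ⟨τ i, ?_, hφ i⟩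
    rw [mem_filter, hA, mem_erase, hφ]
    refine ⟨⟨?_, mem_image_of_mem _ (mem_univ i)⟩, hc0⟩
    intro h0
    exact hc0 (h.2 i h0)
  have h1 : rk s ≤ ((A.filter fun c => φ c ≠ 0).image φ).card := card_le_card hsub
  have h2 : ((A.filter fun c => φ c ≠ 0).image φ).card ≤ (A.filter fun c => φ c ≠ 0).card :=
    card_image_le
  have h3 : (A.filter fun c => φ c ≠ 0).card ≤ A.card := card_filter_le _ _
  have h4 : rk τ = A.card := by rw [hA]; rfl
  refine ⟨by omega, fun hle => ?_⟩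
  have h5 : (A.filter fun c => φ c ≠ 0).card = A.card := by omega
  have h6 : A.filter (fun c => φ c ≠ 0) = A := eq_of_subset_of_card_le (filter_subset _ _) h5.ge
  have h7 : Set.InjOn φ (A.filter fun c => φ c ≠ 0 : Finset Λ) := by
    apply injOn_of_card_image_eq
    omega
  rw [h6] at h7
  have hne : ∀ i, τ i ≠ 0 → s i ≠ 0 ∧ τ i ∈ A := by
    intro i hi
    have hmem : τ i ∈ A := by
      rw [hA, mem_erase]
      exact ⟨hi, mem_image_of_mem _ (mem_univ i)⟩
    have : τ i ∈ A.filter (fun c => φ c ≠ 0) := by rw [h6]; exact hmem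
    rw [mem_filter, hφ] at this
    exact ⟨this.2, hmem⟩
  have hzero : ∀ i, s i = 0 → τ i = 0 := by
    intro i hi
    by_contra hcon
    exact (hne i hcon).1 hi
  refine ⟨fun i j hij => ?_, hzero⟩
  by_cases hi : τ i = 0
  · rw [hi]
    have := h.2 i hi
    rw [hij] at this
    exact (hzero j this).symm
  · by_cases hj : τ j = 0
    · have := h.2 j hj
      rw [← hij] at this
      rw [hj]
      exact hzero i this
    · apply h7 (hne i hi).2 (hne j hj).2
      rw [hφ, hφ]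
      exact hij

theorem rk_lt_card {n : ℕ} {Λ : Type} [Fintype Λ] [DecidableEq Λ] [Zero Λ] (τ : Fin n → Λ) :
    rk τ < Fintype.card Λ := by
  unfold rk
  calc ((univ.image τ).erase 0).card < (univ : Finset Λ).card := by
        apply card_lt_card
        refine ⟨subset_univ _, fun h => ?_⟩
        exact absurd (h (mem_univ 0)) (by simp)
    _ = Fintype.card Λ := card_univ

theorem stPluck : StPluck := by
  classical
  intro p _ Λ _ _ _ n K D F hK hD hclaim T τ₀ r hT hcard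
  obtain ⟨ℓ, hℓ⟩ : ∃ ℓ, ℓ = Fintype.card Λ := ⟨_, rfl⟩
  have hℓ0 : 0 < ℓ := by
    rw [hℓ]
    exact Fintype.card_pos_iff.2 ⟨0⟩
  have hℓℓ : 0 < ℓ ^ ℓ := Nat.pow_pos hℓ0
  have hKℓ : 1 ≤ K ^ ℓ := Nat.one_le_pow _ _ hK
  rw [← hℓ] at hD hclaim hcard
  have hD1 : ℓ ^ ℓ ≤ D := (Nat.le_mul_of_pos_right _ hKℓ).trans hD
  have hDpos : 0 < D := lt_of_lt_of_le hℓℓ hD1
  -- the choice of `s`
  obtain ⟨s, hs, hmax⟩ := exists_max_image (univ.filter fun s : Fin n → Λ => Ref s τ₀)
    (fun s => (T.filter fun t => Ref t s).card * D ^ rk s)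
    ⟨τ₀, mem_filter.2 ⟨mem_univ _, Ref.refl' τ₀⟩⟩
  rw [mem_filter] at hs
  have hsτ := hs.2
  have hmax' : ∀ s' : Fin n → Λ, Ref s' τ₀ →
      (T.filter fun t => Ref t s').card * D ^ rk s' ≤ (T.filter fun t => Ref t s).card * D ^ rk s :=
    fun s' hs' => hmax s' (mem_filter.2 ⟨mem_univ _, hs'⟩)
  obtain ⟨L₀, hL₀⟩ : ∃ L₀, L₀ = T.filter fun t => Ref t s := ⟨_, rfl⟩
  rw [← hL₀] at hmax'
  have hbig : D < L₀.card := by
    have h1 := hmax' τ₀ (Ref.refl' τ₀)
    have h2 : (T.filter fun t => Ref t τ₀) = T := by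
      rw [filter_eq_self]
      exact fun t ht => (hT t ht).1
    rw [h2] at h1
    have h3 : D ^ ℓ < L₀.card * D ^ rk s := by
      calc D ^ ℓ < T.card := hcard
        _ ≤ T.card * D ^ rk τ₀ := Nat.le_mul_of_pos_right _ (Nat.pow_pos hDpos)
        _ ≤ _ := h1
    by_contra hcon
    rw [not_lt] at hcon
    have h4 : L₀.card * D ^ rk s ≤ D ^ ℓ := by
      calc L₀.card * D ^ rk s ≤ D * D ^ rk s := Nat.mul_le_mul_right _ hcon
        _ = D ^ (rk s + 1) := by ring
        _ ≤ D ^ ℓ := Nat.pow_le_pow_right hDpos (by rw [hℓ]; exact rk_lt_card s)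
    omega
  have hL₀r : ∀ t ∈ L₀, t ∈ T ∧ Ref t s := by
    intro t ht
    rw [hL₀, mem_filter] at ht
    exact ht
  -- no member is equivalent to `s`
  have hnot : ∀ t ∈ L₀, ¬ Ref s t := by
    intro t₁ ht₁ hcon
    have hr : rk s = r := by
      have h1 := (stRank Λ n t₁ s (hL₀r t₁ ht₁).2).1
      have h2 := (stRank Λ n s t₁ hcon).1
      have h3 := (hT t₁ (hL₀r t₁ ht₁).1).2
      omega
    have hall : ∀ t ∈ L₀, ∃ ψ : Λ → Λ, ∀ j, ψ (s j) = t j := by
      intro t ht
      have h1 := (stRank Λ n t s (hL₀r t ht).2).2 (by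
        rw [(hT t (hL₀r t ht).1).2, hr])
      obtain ⟨ψ, -, hψ⟩ := exists_factor h1
      exact ⟨ψ, hψ⟩
    have hle : L₀.card ≤ ℓ ^ ℓ := by
      have h2 : L₀ ⊆ (univ : Finset (Λ → Λ)).image fun ψ j => ψ (s j) := by
        intro t ht
        obtain ⟨ψ, hψ⟩ := hall t ht
        exact mem_image.2 ⟨ψ, mem_univ _, funext hψ⟩
      refine (card_le_card h2).trans (card_image_le.trans (le_of_eq ?_))
      rw [card_univ, Fintype.card_fun, hℓ]
    omega
  -- pigeonhole
  have hfac : ∀ t : Fin n → Λ, ∃ φ : Λ → Λ, t ∈ L₀ → (φ 0 = 0 ∧ ∀ j, φ (t j) = s j) := by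
    intro t
    by_cases ht : t ∈ L₀
    · obtain ⟨φ, h1, h2⟩ := exists_factor (hL₀r t ht).2
      exact ⟨φ, fun _ => ⟨h1, h2⟩⟩
    · exact ⟨id, fun h => absurd h ht⟩
  choose f hf using hfac
  obtain ⟨φ, -, hφ⟩ : ∃ φ ∈ (univ : Finset (Λ → Λ)),
      L₀.card ≤ ℓ ^ ℓ * (L₀.filter fun t => f t = φ).card := by
    by_contra hcon
    push Not at hcon
    have h1 : L₀.card = ∑ φ : Λ → Λ, (L₀.filter fun t => f t = φ).card :=
      card_eq_sum_card_fiberwise (fun t _ => mem_coe.2 (mem_univ _))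
    have h2 : ℓ ^ ℓ * L₀.card < ∑ _φ : Λ → Λ, L₀.card := by
      calc ℓ ^ ℓ * L₀.card = ∑ φ : Λ → Λ, ℓ ^ ℓ * (L₀.filter fun t => f t = φ).card := by
            rw [← mul_sum, ← h1]
        _ < ∑ _φ : Λ → Λ, L₀.card := by
            apply sum_lt_sum_of_nonempty ⟨id, mem_univ _⟩
            exact fun φ hφ => hcon φ hφ
    rw [sum_const, card_univ, Fintype.card_fun, ← hℓ, smul_eq_mul] at h2
    exact lt_irrefl _ h2
  obtain ⟨L, hL⟩ : ∃ L, L = L₀.filter fun t => f t = φ := ⟨_, rfl⟩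
  rw [← hL] at hφ
  have hLne : L.Nonempty := by
    rw [← card_pos]
    by_contra hcon
    have h0 : L.card = 0 := by omega
    rw [h0, mul_zero] at hφ
    omega
  have hLmem : ∀ t ∈ L, t ∈ L₀ ∧ f t = φ := by
    intro t ht
    rw [hL, mem_filter] at ht
    exact ht
  have hφ0 : φ 0 = 0 := by
    obtain ⟨t, ht⟩ := hLne
    have := (hf t (hLmem t ht).1).1
    rwa [(hLmem t ht).2] at this
  refine ⟨s, L, ?_, hLne, hsτ, ?_, ?_⟩
  · intro t ht
    exact (hL₀r t (hLmem t ht).1).1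
  · intro t ht
    exact ⟨(hL₀r t (hLmem t ht).1).2, hnot t (hLmem t ht).1⟩
  · apply hclaim L s φ hφ0 _ hLne _
    · intro t ht j
      have := (hf t (hLmem t ht).1).2 j
      rwa [(hLmem t ht).2] at this
    · intro s' hs's hss'
      have hrk : rk s + 1 ≤ rk s' := by
        obtain ⟨h1, h2⟩ := stRank Λ n s' s hs's
        by_contra hcon
        exact hss' (h2 (by omega))
      have h1 := hmax' s' (hs's.trans' hsτ)
      have h2 : (T.filter fun t => Ref t s').card * D ≤ L₀.card := by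
        have h3 : (T.filter fun t => Ref t s').card * D * D ^ rk s ≤ L₀.card * D ^ rk s := by
          calc (T.filter fun t => Ref t s').card * D * D ^ rk s
              = (T.filter fun t => Ref t s').card * D ^ (rk s + 1) := by ring
            _ ≤ (T.filter fun t => Ref t s').card * D ^ rk s' :=
                Nat.mul_le_mul_left _ (Nat.pow_le_pow_right hDpos hrk)
            _ ≤ L₀.card * D ^ rk s := h1
        exact Nat.le_of_mul_le_mul_right h3 (Nat.pow_pos hDpos)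
      have h3 : (L.filter fun i => Ref i s').card ≤ (T.filter fun t => Ref t s').card := by
        apply card_le_card
        intro t ht
        rw [mem_filter] at ht ⊢
        exact ⟨(hL₀r t (hLmem t ht.1).1).1, ht.2⟩
      have h4 : ℓ ^ ℓ * ((L.filter fun i => Ref i s').card * K ^ ℓ) ≤ ℓ ^ ℓ * L.card := by
        calc ℓ ^ ℓ * ((L.filter fun i => Ref i s').card * K ^ ℓ)
            = (L.filter fun i => Ref i s').card * (ℓ ^ ℓ * K ^ ℓ) := by ring
          _ ≤ (T.filter fun t => Ref t s').card * D := Nat.mul_le_mul h3 hD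
          _ ≤ L₀.card := h2
          _ ≤ ℓ ^ ℓ * L.card := hφ
      exact Nat.le_of_mul_le_mul_left h4 hℓℓ

end Pool.Agent.T9h36.SC
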