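import Pool.Agent.T9h20.SC.Spec

/-!
Common refinement.
-/

set_option autoImplicit false

namespace Pool.Agent.T9h36.SC

open Finset Pool.Agent.T9h20.SC

theorem stJoin : StJoin := by
  intro n k x π a b ha hb hab
  refine ⟨fun i => if a i = 0 ∧ b i = 0 then 0 else (x (π i)).succ, ?_, ?_, ?_, ?_⟩
  · unfold Ok
    refine le_trans (le_of_eq ?_) hab
    congr 2
    ext i
    simp only [mem_filter, mem_univ, true_and]
    by_cases h : a i = 0 ∧ b i = 0
    · simp [h]
    · simp only [if_neg h, ne_eq, Fin.succ_ne_zero, not_false_eq_true, true_iff]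
      by_contra hcon
      push Not at hcon
      exact h hcon
  · intro i j hij
    simp only
    rw [ha i j hij, hb i j hij, hij]
  · refine ⟨fun i j hij => ?_, fun i hi => ?_⟩
    · simp only at hij
      by_cases h : a i = 0 ∧ b i = 0
      · by_cases h' : a j = 0 ∧ b j = 0
        · rw [h.1, h'.1]
        · rw [if_pos h, if_neg h'] at hij
          exact absurd hij.symm (Fin.succ_ne_zero _)
      · by_cases h' : a j = 0 ∧ b j = 0
        · rw [if_neg h, if_pos h'] at hij
          exact absurd hij (Fin.succ_ne_zero _)
        · rw [if_neg h, if_neg h'] at hij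
          exact ha i j (Fin.succ_injective _ hij)
    · simp only at hi
      by_cases h : a i = 0 ∧ b i = 0
      · exact h.1
      · rw [if_neg h] at hi
        exact absurd hi (Fin.succ_ne_zero _)
  · refine ⟨fun i j hij => ?_, fun i hi => ?_⟩
    · simp only at hij
      by_cases h : a i = 0 ∧ b i = 0
      · by_cases h' : a j = 0 ∧ b j = 0
        · rw [h.2, h'.2]
        · rw [if_pos h, if_neg h'] at hij
          exact absurd hij.symm (Fin.succ_ne_zero _)
      · by_cases h' : a j = 0 ∧ b j = 0
        · rw [if_neg h, if_pos h'] at hij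
          exact absurd hij (Fin.succ_ne_zero _)
        · rw [if_neg h, if_neg h'] at hij
          exact hb i j (Fin.succ_injective _ hij)
    · simp only at hi
      by_cases h : a i = 0 ∧ b i = 0
      · exact h.2
      · rw [if_neg h] at hi
        exact absurd hi (Fin.succ_ne_zero _)

end Pool.Agent.T9h36.SC
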