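import Pool.Agent.T9h20.SC.Spec2
import Pool.Agent.T9h35.Sharp.Arith

/-!
The choice of the parameters.
-/

set_option autoImplicit false

namespace Pool.Agent.T9h36.SC

open Finset Pool.Agent.T9h20.SC Filter

theorem poly_lt_exp (C : ℝ) (d : ℕ) (r : ℝ) (hr : 1 < r) :
    ∃ N : ℕ, ∀ n ≥ N, C * (n : ℝ) ^ d < r ^ n := by
  have h := tendsto_pow_const_div_const_pow_of_one_lt d hr
  have h2 : Tendsto (fun n : ℕ => C * ((n : ℝ) ^ d / r ^ n)) atTop (nhds (C * 0)) :=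
    h.const_mul C
  rw [mul_zero] at h2
  have h3 := (h2.eventually (gt_mem_nhds (zero_lt_one))).exists_forall_of_atTop
  obtain ⟨N, hN⟩ := h3
  refine ⟨N, fun n hn => ?_⟩
  have h4 := hN n hn
  have hpos : 0 < r ^ n := by positivity
  rw [← mul_div_assoc, div_lt_one hpos] at h4
  exact h4

theorem exp_one_le_four : Real.exp 1 ≤ 4 := by
  have := Real.exp_one_lt_d9
  linarith

theorem succ_pow_le (Y n : ℕ) (hY : 1 ≤ Y) : (Y + 1) ^ n ≤ 4 ^ (n / Y + 1) * Y ^ n := by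
  have hY0 : (0 : ℝ) < Y := by exact_mod_cast hY
  have h1 : ((Y : ℝ) + 1) ^ n ≤ 4 ^ (n / Y + 1) * (Y : ℝ) ^ n := by
    have h2 : ((Y : ℝ) + 1) = (1 + 1 / Y) * Y := by
      field_simp
    rw [h2, mul_pow]
    apply mul_le_mul_of_nonneg_right _ (by positivity)
    have h3 : (n : ℝ) / Y ≤ ((n / Y + 1 : ℕ) : ℝ) := by
      rw [div_le_iff₀ hY0]
      have h4 : n ≤ (n / Y + 1) * Y := by
        have := Nat.lt_mul_div_succ n (b := Y) (by omega)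
        have e : Y * (n / Y + 1) = (n / Y + 1) * Y := mul_comm _ _
        omega
      exact_mod_cast h4
    calc (1 + 1 / (Y : ℝ)) ^ n ≤ (Real.exp (1 / Y)) ^ n := by
          apply pow_le_pow_left₀ (by positivity)
          have := Real.add_one_le_exp (1 / (Y : ℝ))
          linarith
      _ = Real.exp (n / Y) := by
          rw [← Real.exp_nat_mul]
          congr 1
          ring
      _ ≤ Real.exp ((n / Y + 1 : ℕ) : ℝ) := Real.exp_le_exp.2 h3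
      _ = (Real.exp 1) ^ (n / Y + 1) := by
          rw [← Real.exp_nat_mul, mul_one]
      _ ≤ 4 ^ (n / Y + 1) := pow_le_pow_left₀ (Real.exp_pos _).le exp_one_le_four _
  exact_mod_cast h1

theorem succ_pow_self_le (n : ℕ) (hn : 1 ≤ n) : (n + 1) ^ n ≤ 4 * n ^ n := by
  have hn0 : (0 : ℝ) < n := by exact_mod_cast hn
  have h1 : ((n : ℝ) + 1) ^ n ≤ 4 * (n : ℝ) ^ n := by
    have h2 : ((n : ℝ) + 1) = (1 + 1 / n) * n := by
      field_simp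
    rw [h2, mul_pow]
    apply mul_le_mul_of_nonneg_right _ (by positivity)
    calc (1 + 1 / (n : ℝ)) ^ n ≤ (Real.exp (1 / n)) ^ n := by
          apply pow_le_pow_left₀ (by positivity)
          have := Real.add_one_le_exp (1 / (n : ℝ))
          linarith
      _ = Real.exp 1 := by
          rw [← Real.exp_nat_mul]
          congr 1
          field_simp
      _ ≤ 4 := exp_one_le_four
  exact_mod_cast h1

theorem choose_le' (k s : ℕ) (hs : 1 ≤ s) : (k * s).choose s ≤ (3 * k) ^ s := by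
  have h1 : s.factorial * (k * s).choose s ≤ (k * s) ^ s := by
    rw [← Nat.descFactorial_eq_factorial_mul_choose]
    exact Nat.descFactorial_le_pow _ _
  have h2 := Pool.Agent.T9h35.Sharp.pow_le_fact s
  have h3 : (k * s).choose s * s ^ s ≤ (3 * k) ^ s * s ^ s := by
    calc (k * s).choose s * s ^ s ≤ (k * s).choose s * (3 ^ s * s.factorial) :=
          Nat.mul_le_mul_left _ h2
      _ = 3 ^ s * (s.factorial * (k * s).choose s) := by ring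
      _ ≤ 3 ^ s * (k * s) ^ s := Nat.mul_le_mul_left _ h1
      _ = (3 * k) ^ s * s ^ s := by
          rw [mul_pow, mul_pow]
          ring
  exact Nat.le_of_mul_le_mul_right h3 (Nat.pow_pos hs)

theorem pow_le_rpow {f K₀ ℓ n : ℕ} {δ : ℝ} (hf : 1 ≤ f) (hK₀ : 1 ≤ K₀) (h : f ^ K₀ ≤ 2 ^ n)
    (hδ : (ℓ : ℝ) ≤ δ * K₀) : (f : ℝ) ^ ℓ ≤ 2 ^ (δ * n) := by
  have hf' : (0 : ℝ) ≤ f := Nat.cast_nonneg f
  have hK : (0 : ℝ) < K₀ := by exact_mod_cast hK₀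
  have h1 : (f : ℝ) ≤ 2 ^ ((n : ℝ) / K₀) := by
    have h2 : (f : ℝ) ^ K₀ ≤ 2 ^ n := by exact_mod_cast h
    calc (f : ℝ) = ((f : ℝ) ^ K₀) ^ ((K₀ : ℝ)⁻¹) := by
          rw [Real.pow_rpow_inv_natCast hf' (by omega)]
      _ ≤ ((2 : ℝ) ^ n) ^ ((K₀ : ℝ)⁻¹) := Real.rpow_le_rpow (by positivity) h2 (by positivity)
      _ = 2 ^ ((n : ℝ) / K₀) := by
          rw [← Real.rpow_natCast, ← Real.rpow_mul (by norm_num)]
          rfl
  calc (f : ℝ) ^ ℓ ≤ (2 ^ ((n : ℝ) / K₀)) ^ ℓ := pow_le_pow_left₀ hf' h1 ℓ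
    _ = 2 ^ ((n : ℝ) / K₀ * ℓ) := by
        rw [Real.rpow_mul (by norm_num), Real.rpow_natCast]
    _ ≤ 2 ^ (δ * n) := by
        apply Real.rpow_le_rpow_of_exponent_le (by norm_num)
        rw [div_mul_eq_mul_div, div_le_iff₀ hK]
        have hn : (0 : ℝ) ≤ n := Nat.cast_nonneg n
        nlinarith

/-- The third condition. -/
theorem cond3 {ℓ n R r p f m : ℕ} (hℓ : 2 ≤ ℓ) (hr : r = n / R) (hR : 1 ≤ R) (hRn : R ≤ n)
    (hp : 2 ^ (ℓ + R * (2 * ℓ + 4)) ≤ p)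
    (hbig : 2 ^ (4 + 2 * ℓ + (2 * ℓ + 4) * R) * p ^ (2 * (p - 1) + ℓ + 1) * n ^ (p - 1) < 4 ^ n)
    (hf : f ≤ 2 ^ n) (hm : m ≤ 2 ^ n) :
    (m + 1) * ((f + 1) * ((ℓ ^ n + 1) *
      (ℓ ^ n * ((2 ^ r + 1) ^ ℓ * (p ^ (n + 1 - r) * (4 * (p ^ 2 * n) ^ (p - 1))))))) * p ^ ℓ
        < p ^ n := by
  have hr1 : 1 ≤ r := by
    rw [hr]
    exact (Nat.one_le_div_iff (by omega)).2 hRn
  have hrn : r ≤ n := by
    rw [hr]
    exact Nat.div_le_self _ _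
  have hp1 : 1 ≤ p := le_trans Nat.one_le_two_pow hp
  have h1 : m + 1 ≤ 2 ^ (n + 1) := by
    have : 1 ≤ 2 ^ n := Nat.one_le_two_pow
    rw [pow_succ]
    omega
  have h2 : f + 1 ≤ 2 ^ (n + 1) := by
    have : 1 ≤ 2 ^ n := Nat.one_le_two_pow
    rw [pow_succ]
    omega
  have hℓ2 : ℓ ≤ 2 ^ ℓ := Nat.lt_two_pow_self.le
  have h3 : ℓ ^ n + 1 ≤ 2 ^ (ℓ * n + 1) := by
    have h4 : ℓ ^ n ≤ 2 ^ (ℓ * n) := by
      rw [pow_mul]
      exact Nat.pow_le_pow_left hℓ2 n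
    have : 1 ≤ 2 ^ (ℓ * n) := Nat.one_le_two_pow
    rw [pow_succ]
    omega
  have h4 : ℓ ^ n ≤ 2 ^ (ℓ * n) := by
    rw [pow_mul]
    exact Nat.pow_le_pow_left hℓ2 n
  have h5 : (2 ^ r + 1) ^ ℓ ≤ 2 ^ ((r + 1) * ℓ) := by
    rw [pow_mul]
    apply Nat.pow_le_pow_left
    have : 1 ≤ 2 ^ r := Nat.one_le_two_pow
    rw [pow_succ]
    omega
  obtain ⟨Q, hQ⟩ : ∃ Q, Q = p ^ (n + 1 - r) := ⟨_, rfl⟩
  have hQ1 : 0 < Q := by
    rw [hQ]
    exact Nat.pow_pos hp1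
  have hpn : p ^ n = p ^ (r - 1) * Q := by
    rw [hQ, ← pow_add]
    congr 1
    omega
  rw [hpn, ← hQ]
  have h6 : (m + 1) * ((f + 1) * ((ℓ ^ n + 1) *
      (ℓ ^ n * ((2 ^ r + 1) ^ ℓ * (Q * (4 * (p ^ 2 * n) ^ (p - 1))))))) * p ^ ℓ ≤
      (2 ^ (n + 1) * (2 ^ (n + 1) * (2 ^ (ℓ * n + 1) * (2 ^ (ℓ * n) * (2 ^ ((r + 1) * ℓ) *
        (4 * (p ^ 2 * n) ^ (p - 1)))))) * p ^ ℓ) * Q := by
    calc (m + 1) * ((f + 1) * ((ℓ ^ n + 1) *
      (ℓ ^ n * ((2 ^ r + 1) ^ ℓ * (Q * (4 * (p ^ 2 * n) ^ (p - 1))))))) * p ^ ℓ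
        ≤ 2 ^ (n + 1) * (2 ^ (n + 1) * (2 ^ (ℓ * n + 1) * (2 ^ (ℓ * n) * (2 ^ ((r + 1) * ℓ) *
        (Q * (4 * (p ^ 2 * n) ^ (p - 1))))))) * p ^ ℓ := by gcongr
      _ = _ := by ring
  refine lt_of_le_of_lt h6 (Nat.mul_lt_mul_of_pos_right ?_ hQ1)
  -- now without `Q`
  have h7 : 2 ^ (n + 1) * (2 ^ (n + 1) * (2 ^ (ℓ * n + 1) * (2 ^ (ℓ * n) * (2 ^ ((r + 1) * ℓ) *
        (4 * (p ^ 2 * n) ^ (p - 1)))))) * p ^ ℓ * p < p ^ r := by
    have hRr : n + 1 ≤ R * r + R := by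
      rw [hr]
      have := Nat.lt_mul_div_succ n (b := R) (by omega)
      have e : R * (n / R + 1) = R * (n / R) + R := by ring
      omega
    have h8 : 2 ^ (ℓ * r) * 2 ^ ((2 * ℓ + 4) * (n + 1)) ≤ p ^ r * 2 ^ ((2 * ℓ + 4) * R) := by
      calc 2 ^ (ℓ * r) * 2 ^ ((2 * ℓ + 4) * (n + 1))
          ≤ 2 ^ (ℓ * r) * 2 ^ ((2 * ℓ + 4) * (R * r + R)) := by
            apply Nat.mul_le_mul_left
            apply Nat.pow_le_pow_right (by norm_num)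
            exact Nat.mul_le_mul_left _ hRr
        _ = (2 ^ (ℓ + R * (2 * ℓ + 4))) ^ r * 2 ^ ((2 * ℓ + 4) * R) := by
            rw [← pow_mul, ← pow_add, ← pow_add]
            congr 1
            ring
        _ ≤ p ^ r * 2 ^ ((2 * ℓ + 4) * R) := Nat.mul_le_mul_right _ (Nat.pow_le_pow_left hp r)
    have h9 : 2 ^ (n + 1) * (2 ^ (n + 1) * (2 ^ (ℓ * n + 1) * (2 ^ (ℓ * n) * (2 ^ ((r + 1) * ℓ) *
        (4 * (p ^ 2 * n) ^ (p - 1)))))) * p ^ ℓ * p * 2 ^ ((2 * ℓ + 4) * R) <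
        p ^ r * 2 ^ ((2 * ℓ + 4) * R) := by
      calc 2 ^ (n + 1) * (2 ^ (n + 1) * (2 ^ (ℓ * n + 1) * (2 ^ (ℓ * n) * (2 ^ ((r + 1) * ℓ) *
        (4 * (p ^ 2 * n) ^ (p - 1)))))) * p ^ ℓ * p * 2 ^ ((2 * ℓ + 4) * R)
          = 2 ^ (2 * n + 5 + 2 * (ℓ * n) + ℓ * r + ℓ + (2 * ℓ + 4) * R) *
            (p ^ (2 * (p - 1) + ℓ + 1) * n ^ (p - 1)) := by
            rw [mul_pow, ← pow_mul]
            have e4 : (4 : ℕ) = 2 ^ 2 := by norm_num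
            rw [e4]
            ring
        _ ≤ 2 ^ (ℓ * r + 2 * (ℓ * n) + 2 * n + 1) *
            (2 ^ (4 + 2 * ℓ + (2 * ℓ + 4) * R) * p ^ (2 * (p - 1) + ℓ + 1) * n ^ (p - 1)) := by
            have e5 : 2 ^ (ℓ * r + 2 * (ℓ * n) + 2 * n + 1) *
              (2 ^ (4 + 2 * ℓ + (2 * ℓ + 4) * R) * p ^ (2 * (p - 1) + ℓ + 1) * n ^ (p - 1)) =
              2 ^ ((ℓ * r + 2 * (ℓ * n) + 2 * n + 1) + (4 + 2 * ℓ + (2 * ℓ + 4) * R)) *
                (p ^ (2 * (p - 1) + ℓ + 1) * n ^ (p - 1)) := by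
              rw [pow_add 2 (ℓ * r + 2 * (ℓ * n) + 2 * n + 1)]
              ring
            rw [e5]
            apply Nat.mul_le_mul_right
            apply Nat.pow_le_pow_right (by norm_num)
            omega
        _ < 2 ^ (ℓ * r + 2 * (ℓ * n) + 2 * n + 1) * 4 ^ n :=
            Nat.mul_lt_mul_of_pos_left hbig (by positivity)
        _ ≤ 2 ^ (ℓ * r) * 2 ^ ((2 * ℓ + 4) * (n + 1)) := by
            have e4 : (4 : ℕ) ^ n = 2 ^ (2 * n) := by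
              rw [pow_mul]
              norm_num
            rw [e4, ← pow_add, ← pow_add]
            apply Nat.pow_le_pow_right (by norm_num)
            have e6 : (2 * ℓ + 4) * (n + 1) = 2 * (ℓ * n) + 4 * n + 2 * ℓ + 4 := by ring
            rw [e6]
            omega
        _ ≤ p ^ r * 2 ^ ((2 * ℓ + 4) * R) := h8
    exact lt_of_mul_lt_mul_right h9 (Nat.zero_le _)
  have h8 : p ^ r = p ^ (r - 1) * p := by
    rw [← pow_succ]
    congr 1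
    omega
  rw [h8] at h7
  exact lt_of_mul_lt_mul_right h7 (Nat.zero_le _)

end Pool.Agent.T9h36.SC
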